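import Pool.Agent.Helper5.LCU.Stmts

set_option autoImplicit false

namespace Pool.Agent.Helper74.LCU

open Pool.Agent.Helper5.LCU

theorem desc_le (t i j : ℕ) (ht : t ≤ i) (hij : i ≤ j) :
    (i.descFactorial t : ℝ) * ((j + 2).descFactorial t : ℝ) ≤
      ((i + 1).descFactorial t : ℝ) * ((j + 1).descFactorial t : ℝ) := by
  have h1 := Nat.succ_descFactorial i t
  have h2 := Nat.succ_descFactorial (j + 1) t
  have e1 : ((i : ℝ) + 1 - t) * ((i + 1).descFactorial t : ℝ) =
      ((i : ℝ) + 1) * (i.descFactorial t : ℝ) := by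
    have := congrArg (fun n : ℕ => (n : ℝ)) h1
    push_cast [Nat.cast_sub (show t ≤ i + 1 by omega)] at this
    exact this
  have e2 : ((j : ℝ) + 2 - t) * ((j + 2).descFactorial t : ℝ) =
      ((j : ℝ) + 2) * ((j + 1).descFactorial t : ℝ) := by
    have := congrArg (fun n : ℕ => (n : ℝ)) h2
    push_cast [Nat.cast_sub (show t ≤ j + 1 + 1 by omega)] at this
    have h3 : (j : ℝ) + 1 + 1 = (j : ℝ) + 2 := by ring
    rw [h3] at this
    exact this
  have hti : (t : ℝ) ≤ i := by exact_mod_cast ht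
  have hij' : (i : ℝ) ≤ j := by exact_mod_cast hij
  have p1 : 0 < (i : ℝ) + 1 - t := by linarith
  have p2 : 0 < (j : ℝ) + 2 - t := by linarith
  have hA : (0 : ℝ) ≤ (i.descFactorial t : ℝ) := Nat.cast_nonneg _
  have hB : (0 : ℝ) ≤ ((j + 1).descFactorial t : ℝ) := Nat.cast_nonneg _
  have ht0 : (0 : ℝ) ≤ t := Nat.cast_nonneg _
  refine le_of_mul_le_mul_left ?_ (mul_pos p1 p2)
  calc ((i : ℝ) + 1 - t) * ((j : ℝ) + 2 - t) *
        ((i.descFactorial t : ℝ) * ((j + 2).descFactorial t : ℝ))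
      = ((i : ℝ) + 1 - t) * (i.descFactorial t : ℝ) *
        (((j : ℝ) + 2 - t) * ((j + 2).descFactorial t : ℝ)) := by ring
    _ = (((i : ℝ) + 1 - t) * ((j : ℝ) + 2)) *
        ((i.descFactorial t : ℝ) * ((j + 1).descFactorial t : ℝ)) := by rw [e2]; ring
    _ ≤ (((i : ℝ) + 1) * ((j : ℝ) + 2 - t)) *
        ((i.descFactorial t : ℝ) * ((j + 1).descFactorial t : ℝ)) := by
        refine mul_le_mul_of_nonneg_right ?_ (mul_nonneg hA hB)
        nlinarith
    _ = (((i : ℝ) + 1) * (i.descFactorial t : ℝ)) *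
        (((j : ℝ) + 2 - t) * ((j + 1).descFactorial t : ℝ)) := by ring
    _ = ((i : ℝ) + 1 - t) * ((j : ℝ) + 2 - t) *
        (((i + 1).descFactorial t : ℝ) * ((j + 1).descFactorial t : ℝ)) := by rw [← e1]; ring

/-- the row LOW -/
theorem st_LOW : ST_LOW := by
  intro g hg t
  have nn : ∀ j : ℕ, (0 : ℝ) ≤ if j < t then 0 else (j.descFactorial t : ℝ) * g (j - t) := by
    intro j
    split_ifs
    · exact le_rfl
    · exact mul_nonneg (Nat.cast_nonneg _) (hg.1 _)
  refine ⟨nn, fun i j hij => ?_⟩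
  rcases lt_or_ge i t with h | h
  · have h0 : (if i < t then (0 : ℝ) else (i.descFactorial t : ℝ) * g (i - t)) = 0 := if_pos h
    have h1 := mul_nonneg (nn (i + 1)) (nn (j + 1))
    simp only [h0, zero_mul]
    exact h1
  · have c1 : ¬ i < t := by omega
    have c2 : ¬ j + 2 < t := by omega
    have c3 : ¬ i + 1 < t := by omega
    have c4 : ¬ j + 1 < t := by omega
    simp only [if_neg c1, if_neg c2, if_neg c3, if_neg c4]
    have h1 := hg.2 (i - t) (j - t) (by omega)
    have h2 := desc_le t i j h hij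
    have d1 : j + 2 - t = j - t + 2 := by omega
    have d2 : i + 1 - t = i - t + 1 := by omega
    have d3 : j + 1 - t = j - t + 1 := by omega
    rw [d1, d2, d3]
    calc (i.descFactorial t : ℝ) * g (i - t) * (((j + 2).descFactorial t : ℝ) * g (j - t + 2))
        = (i.descFactorial t : ℝ) * ((j + 2).descFactorial t : ℝ) *
          (g (i - t) * g (j - t + 2)) := by ring
      _ ≤ ((i + 1).descFactorial t : ℝ) * ((j + 1).descFactorial t : ℝ) *
          (g (i - t + 1) * g (j - t + 1)) :=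
          mul_le_mul h2 h1 (mul_nonneg (hg.1 _) (hg.1 _))
            (mul_nonneg (Nat.cast_nonneg _) (Nat.cast_nonneg _))
      _ = ((i + 1).descFactorial t : ℝ) * g (i - t + 1) *
          (((j + 1).descFactorial t : ℝ) * g (j - t + 1)) := by ring

end Pool.Agent.Helper74.LCU
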